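import Mathlib
import Pool.Agent.H86.SSep

set_option autoImplicit false

namespace Pool.Agent.Results.MP_656a26_gt.FreeNotSSep

open TopologicalSpace

/-- the group topologies on the free group over `[0,1]` that restrict to the Euclidean topology
on the generators -/
def Admissible : Set (TopologicalSpace (FreeGroup (Set.Icc (0 : ℝ) 1))) :=
  {t | @IsTopologicalGroup _ t _ ∧
    TopologicalSpace.induced FreeGroup.of t = (inferInstance : TopologicalSpace (Set.Icc (0 : ℝ) 1))}

/-- The Markov free topological group on `[0,1]` is not S-separable. -/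
theorem result :
    ∃ t : TopologicalSpace (FreeGroup (Set.Icc (0 : ℝ) 1)), IsLeast Admissible t ∧
      ∃ (H : Type) (_ : Group H) (_ : TopologicalSpace H), IsTopologicalGroup H ∧ T2Space H ∧
        (∀ K : Subgroup H, IsClosed (K : Set H) → SeparableSpace K) ∧
        ∃ L : Subgroup (FreeGroup (Set.Icc (0 : ℝ) 1) × H),
          IsClosed (L : Set (FreeGroup (Set.Icc (0 : ℝ) 1) × H)) ∧ ¬ SeparableSpace L := by
  let π : FreeGroup (Set.Icc (0 : ℝ) 1) →* Multiplicative ℝ :=
    FreeGroup.lift (fun x => Multiplicative.ofAdd x.1)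
  have hπ : TopologicalSpace.induced π inferInstance ∈ Admissible := by
    refine ⟨topologicalGroup_induced π, ?_⟩
    rw [induced_compose]
    have : π ∘ FreeGroup.of = fun x => Multiplicative.ofAdd x.1 := by
      ext x
      simp [π]
    rw [this]
    rfl
  have hsurj : Function.Surjective π := by
    intro y
    refine ⟨FreeGroup.of ⟨1, by simp⟩ ^ ⌊Multiplicative.toAdd y⌋ *
      FreeGroup.of ⟨Int.fract (Multiplicative.toAdd y), Int.fract_nonneg _,
        (Int.fract_lt_one _).le⟩, ?_⟩
    apply Multiplicative.toAdd.injective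
    simp [π]
  refine ⟨sInf Admissible, ⟨⟨topologicalGroup_sInf fun t ht => ht.1, ?_⟩,
    fun t ht => sInf_le ht⟩, ?_⟩
  · rw [sInf_eq_iInf, induced_iInf]
    apply le_antisymm
    · refine iInf_le_of_le (TopologicalSpace.induced π inferInstance) ?_
      rw [induced_iInf]
      exact iInf_le_of_le hπ hπ.2.le
    · refine le_iInf fun t => ?_
      rw [induced_iInf]
      exact le_iInf fun ht => ht.2.ge
  · refine ⟨Multiplicative Pool.Agent.H86.SSep.HH, inferInstance, inferInstance, inferInstance,
      inferInstanceAs (T2Space Pool.Agent.H86.SSep.HH),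
      fun K _ => Pool.Agent.H86.SSep.closed_subgroup_separable K, ?_⟩
    exact @Pool.Agent.H86.SSep.exists_nonseparable _ _ (sInf Admissible) π
      (continuous_iff_le_induced.2 (sInf_le hπ)) hsurj

end Pool.Agent.Results.MP_656a26_gt.FreeNotSSep
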